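import Pool.Agent.W424.FR.Defs

/-!
FR-LIM: the upper bound for the dimension of the boundaries in the limit.
-/

set_option autoImplicit false

namespace Pool.Agent.W191.FR

open MeasureTheory Filter Topology
open Pool.Agent.W424.FR Pool.Agent.W462.DPL H984N
open scoped ENNReal NNReal

theorem EvH_mono {z : ℂ} {r ρ ζ ζ' : ℝ} (h : ζ' ≤ ζ) : EvH z r ρ ζ ⊆ EvH z r ρ ζ' := by
  rintro c ⟨t, h1, h2, g, g0, g1, hg⟩
  exact ⟨t, h1, h2, g, g0, g1, fun s hs u => lt_of_le_of_lt h (hg s hs u)⟩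

/-- the union over all margins -/
def EvQ (z : ℂ) (r ρ : ℝ) : Set C(unitInterval, ℂ) := ⋃ j : ℕ, EvH z r ρ (1 / ((j : ℝ) + 1))

theorem EvQ_open (hO : S_OP) (z : ℂ) (r ρ : ℝ) : IsOpen (EvQ z r ρ) :=
  isOpen_iUnion fun _ => hO _ _ _ _

/-- The set whose dimension is bounded. -/
def SOH (η : ℝ) (f : C(unitInterval, ℂ)) : Set ℂ :=
  {w | ∃ t : unitInterval, ∃ y : ℂ, η ≤ dist (f t) w ∧ y ∉ f '' Set.Iic t ∧ η ≤ dist y w ∧
    w ∈ frontier (connectedComponentIn (f '' Set.Iic t)ᶜ y)}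

open Classical in
/-- the event which belongs to a covering set -/
noncomputable def HO (D : Set ℂ) (d N : ℝ) (a b : ℤ) : Set C(unitInterval, ℂ) :=
  if h : (H934F.t10_sq N a b ∩ H934F.t10_A D d).Nonempty then EvQ h.some (2 / N) (d / 2) else ∅

theorem HO_open (hO : S_OP) (D : Set ℂ) (d N : ℝ) (a b : ℤ) : IsOpen (HO D d N a b) := by
  unfold HO
  split_ifs
  · exact EvQ_open hO _ _ _
  · exact isOpen_empty

theorem HO_of (hE : S_EV) {D : Set ℂ} {d N η : ℝ} (hdη : d ≤ η) (hN : 2 / N ≤ d / 2) {a b : ℤ}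
    {p : C(unitInterval, ℂ)} {A : Set ℂ} (h : ((SOH η p ∩ A) ∩ H934F.t10_U D d N a b).Nonempty) :
    p ∈ HO D d N a b := by
  obtain ⟨w, ⟨hw1, _⟩, hw2⟩ := h
  unfold H934F.t10_U at hw2
  unfold HO
  split_ifs at hw2 ⊢ with h
  · rw [Metric.mem_ball] at hw2
    obtain ⟨t, y, h1, h2, h3, h4⟩ := hw1
    obtain ⟨j, hj⟩ := hE p w t y η h1 h2 h3 h4 h.some (2 / N) (d / 2) hw2 (by linarith)
    exact Set.mem_iUnion.2 ⟨j, hj⟩
  · exact absurd hw2 (Set.notMem_empty _)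

theorem lim0 (M : ℝ) (C d t a : ℝ) (hd : 0 < d) (ht : 2 - a < t) (m0 : ℕ) (hm0 : 1 ≤ m0) :
    Tendsto (fun m : ℕ => (2 * M * ((m + m0 : ℕ) : ℝ)) ^ 2 * ((4 / ((m + m0 : ℕ) : ℝ)) ^ t *
      (C * ((2 / ((m + m0 : ℕ) : ℝ)) / d) ^ a))) atTop (𝓝 0) := by
  have h1 : Tendsto (fun m : ℕ => ((m + m0 : ℕ) : ℝ)) atTop atTop :=
    tendsto_natCast_atTop_atTop.comp (tendsto_add_atTop_nat m0)
  have h2 : Tendsto (fun x : ℝ => x ^ (-(t - (2 - a)))) atTop (𝓝 0) :=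
    tendsto_rpow_neg_atTop (by linarith)
  have h3 := (h2.comp h1).const_mul ((2 * M) ^ 2 * (4 ^ t * (C * (2 / d) ^ a)))
  rw [mul_zero] at h3
  refine h3.congr ?_
  intro m
  have hpos : (0 : ℝ) < ((m + m0 : ℕ) : ℝ) := by
    have : 0 < m + m0 := by omega
    exact_mod_cast this
  set x : ℝ := ((m + m0 : ℕ) : ℝ) with hx
  simp only [Function.comp]
  rw [← hx]
  have e1 : (4 / x) ^ t = 4 ^ t * x ^ (-t) := by
    rw [Real.div_rpow (by norm_num) hpos.le, Real.rpow_neg hpos.le]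
    ring
  have e2 : ((2 / x) / d) ^ a = (2 / d) ^ a * x ^ (-a : ℝ) := by
    have : (2 / x) / d = (2 / d) / x := by
      field_simp
    rw [this, Real.div_rpow (by positivity) hpos.le, Real.rpow_neg hpos.le]
    ring
  have e3 : x ^ (-(t - (2 - a))) = x ^ (2 : ℝ) * (x ^ (-t) * x ^ (-a : ℝ)) := by
    rw [← Real.rpow_add hpos, ← Real.rpow_add hpos]
    congr 1
    ring
  rw [e1, e2, e3, Real.rpow_two]
  ring

/-- one scale -/
theorem one_scaleO (hO : S_OP) (hE : S_EV) {D : Set ℂ} {M : ℕ}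
    (hM : ∀ z ∈ D, |z.re| < M ∧ |z.im| < M) {C d η a : ℝ}
    (hd : 0 < d) (hdη : d ≤ η) {μ : ProbabilityMeasure C(unitInterval, ℂ)}
    (hp : ∀ (z : ℂ) (r : ℝ), 0 < r → r ≤ d → Metric.ball z d ⊆ D →
      (μ : Measure C(unitInterval, ℂ)) (EvQ z r (d / 2)) ≤ ENNReal.ofReal (C * (r / d) ^ a))
    {t : ℝ} (ht0 : 0 < t) (ht : 2 - a < t) :
    ∀ᵐ p ∂(μ : Measure C(unitInterval, ℂ)),
      dimH (SOH η p ∩ H934F.t10_A D d) ≤ ENNReal.ofReal t := by
  obtain ⟨m1, hm1⟩ := exists_nat_gt (4 / d)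
  set m0 : ℕ := m1 + 1 with hm0
  have hN : ∀ m : ℕ, (0 : ℝ) < ((m + m0 : ℕ) : ℝ) := by
    intro m
    have : 0 < m + m0 := by omega
    exact_mod_cast this
  have hNd : ∀ m : ℕ, 2 / ((m + m0 : ℕ) : ℝ) ≤ d / 2 := by
    intro m
    rw [div_le_iff₀ (hN m)]
    rw [div_lt_iff₀ hd] at hm1
    have : (m1 : ℝ) ≤ ((m + m0 : ℕ) : ℝ) := by
      have : m1 ≤ m + m0 := by omega
      exact_mod_cast this
    nlinarith
  have hsub : H934F.t10_A D d ⊆ D := fun z hz => hz (Metric.mem_ball_self hd)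
  have hμ : Tendsto (fun _ : ℕ => μ) atTop (𝓝 μ) := tendsto_const_nhds
  refine upperG ht0 hμ (fun p => SOH η p ∩ H934F.t10_A D d)
    (ι := fun m => Fin (2 * M * (m + m0)) × Fin (2 * M * (m + m0)))
    (fun m i => H934F.t10_U D d ((m + m0 : ℕ) : ℝ) ((i.1 : ℕ) - (M * (m + m0) : ℕ) : ℤ)
      ((i.2 : ℕ) - (M * (m + m0) : ℕ) : ℤ))
    (fun m i => HO D d ((m + m0 : ℕ) : ℝ) ((i.1 : ℕ) - (M * (m + m0) : ℕ) : ℤ)
      ((i.2 : ℕ) - (M * (m + m0) : ℕ) : ℤ))
    (fun m i => HO_open hO _ _ _ _ _) (fun m i p h => HO_of hE hdη (hNd m) h)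
    (fun m => ENNReal.ofReal (4 / ((m + m0 : ℕ) : ℝ))) ?_
    (fun m i => H934F.t10_U_ediam _ _ _ _ _)
    ?_ (fun m _ => ENNReal.ofReal (C * ((2 / ((m + m0 : ℕ) : ℝ)) / d) ^ a)) ?_ ?_
  · -- the radii tend to zero
    have h1 : Tendsto (fun m : ℕ => ((m + m0 : ℕ) : ℝ)) atTop atTop :=
      tendsto_natCast_atTop_atTop.comp (tendsto_add_atTop_nat m0)
    have h2 : Tendsto (fun m : ℕ => 4 / ((m + m0 : ℕ) : ℝ)) atTop (𝓝 0) :=
      h1.const_div_atTop 4
    have h3 := ENNReal.tendsto_ofReal h2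
    rwa [ENNReal.ofReal_zero] at h3
  · -- covering
    rintro m p z ⟨_, hz⟩
    obtain ⟨h1, h2⟩ := hM z (hsub hz)
    have hb : ∀ y : ℝ, |y| < M → -((M * (m + m0) : ℕ) : ℤ) ≤ ⌊((m + m0 : ℕ) : ℝ) * y⌋ ∧
        ⌊((m + m0 : ℕ) : ℝ) * y⌋ < ((M * (m + m0) : ℕ) : ℤ) := by
      intro y hy
      rw [abs_lt] at hy
      have hn := hN m
      constructor
      · rw [Int.le_floor]
        push_cast at hn ⊢
        nlinarith
      · rw [Int.floor_lt]
        push_cast at hn ⊢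
        nlinarith
    obtain ⟨h3, h4⟩ := hb _ h1
    obtain ⟨h5, h6⟩ := hb _ h2
    refine Set.mem_iUnion.mpr ⟨(⟨(⌊((m + m0 : ℕ) : ℝ) * z.re⌋ + (M * (m + m0) : ℕ)).toNat, ?_⟩,
      ⟨(⌊((m + m0 : ℕ) : ℝ) * z.im⌋ + (M * (m + m0) : ℕ)).toNat, ?_⟩), ?_⟩
    · rw [Int.toNat_lt (by omega)]
      have : ((2 * M * (m + m0) : ℕ) : ℤ) = 2 * ((M * (m + m0) : ℕ) : ℤ) := by
        push_cast; ring
      omega
    · rw [Int.toNat_lt (by omega)]
      have : ((2 * M * (m + m0) : ℕ) : ℤ) = 2 * ((M * (m + m0) : ℕ) : ℤ) := by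
        push_cast; ring
      omega
    · have hcov := H934F.t10_U_cover (N := ((m + m0 : ℕ) : ℝ)) (hN m) hz
      simp only
      rw [Int.toNat_of_nonneg (by omega), Int.toNat_of_nonneg (by omega)]
      rw [add_sub_cancel_right, add_sub_cancel_right]
      exact hcov
  · -- probabilities
    intro m i
    refine (Eventually.of_forall fun n => ?_).frequently
    unfold HO
    split_ifs with h
    · exact hp h.some (2 / ((m + m0 : ℕ) : ℝ)) (div_pos two_pos (hN m))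
        ((hNd m).trans (by linarith)) h.some_mem.2
    · rw [measure_empty]
      exact zero_le
  · -- the sums tend to zero
    have hl := ENNReal.tendsto_ofReal (lim0 M C d t a hd ht m0 (by omega))
    rw [ENNReal.ofReal_zero] at hl
    refine tendsto_of_tendsto_of_tendsto_of_le_of_le tendsto_const_nhds hl
      (fun m => zero_le) (fun m => ?_)
    have hn := hN m
    have h4 : 0 ≤ (4 : ℝ) / ((m + m0 : ℕ) : ℝ) := by positivity
    calc ∑ i : Fin (2 * M * (m + m0)) × Fin (2 * M * (m + m0)),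
          Metric.ediam (H934F.t10_U D d ((m + m0 : ℕ) : ℝ) ((i.1 : ℕ) - (M * (m + m0) : ℕ) : ℤ)
            ((i.2 : ℕ) - (M * (m + m0) : ℕ) : ℤ)) ^ t *
            ENNReal.ofReal (C * ((2 / ((m + m0 : ℕ) : ℝ)) / d) ^ a)
        ≤ ∑ _i : Fin (2 * M * (m + m0)) × Fin (2 * M * (m + m0)),
          ENNReal.ofReal ((4 / ((m + m0 : ℕ) : ℝ)) ^ t *
            (C * ((2 / ((m + m0 : ℕ) : ℝ)) / d) ^ a)) := by
          refine Finset.sum_le_sum fun i _ => ?_
          have e5 : ENNReal.ofReal ((4 / ((m + m0 : ℕ) : ℝ)) ^ t *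
              (C * ((2 / ((m + m0 : ℕ) : ℝ)) / d) ^ a)) =
              ENNReal.ofReal (4 / ((m + m0 : ℕ) : ℝ)) ^ t *
                ENNReal.ofReal (C * ((2 / ((m + m0 : ℕ) : ℝ)) / d) ^ a) := by
            rw [ENNReal.ofReal_mul (by positivity), ENNReal.ofReal_rpow_of_nonneg h4 ht0.le]
          rw [e5]
          gcongr
          exact H934F.t10_U_ediam _ _ _ _ _
      _ ≤ ENNReal.ofReal ((2 * M * ((m + m0 : ℕ) : ℝ)) ^ 2 * ((4 / ((m + m0 : ℕ) : ℝ)) ^ t *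
            (C * ((2 / ((m + m0 : ℕ) : ℝ)) / d) ^ a))) := by
          have e : (2 * (M : ℝ) * ((m + m0 : ℕ) : ℝ)) ^ 2 =
              ((2 * M * (m + m0) * (2 * M * (m + m0)) : ℕ) : ℝ) := by
            push_cast
            ring
          rw [Finset.sum_const, Finset.card_univ, Fintype.card_prod, Fintype.card_fin,
            nsmul_eq_mul, e, ENNReal.ofReal_mul (Nat.cast_nonneg _), ENNReal.ofReal_natCast]

/-- the bound for the limit law -/
theorem mu_le (hO : S_OP) {C a : ℝ} {μs : ℕ → ProbabilityMeasure C(unitInterval, ℂ)}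
    {μ : ProbabilityMeasure C(unitInterval, ℂ)} (hμ : Tendsto μs atTop (𝓝 μ))
    {z : ℂ} {r d : ℝ}
    (hP : ∀ ζ : ℝ, 0 < ζ → ∀ᶠ i in atTop,
      (μs i : Measure C(unitInterval, ℂ)) (EvH z r (d / 2) ζ) ≤
        ENNReal.ofReal (C * (r / d) ^ a)) :
    (μ : Measure C(unitInterval, ℂ)) (EvQ z r (d / 2)) ≤ ENNReal.ofReal (C * (r / d) ^ a) := by
  have hmono : Monotone (fun j : ℕ => EvH z r (d / 2) (1 / ((j : ℝ) + 1))) := by
    intro i j hij
    apply EvH_mono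
    have : (i : ℝ) ≤ j := by exact_mod_cast hij
    exact one_div_le_one_div_of_le (by positivity) (by linarith)
  unfold EvQ
  rw [hmono.measure_iUnion]
  refine iSup_le fun j => ?_
  refine (ProbabilityMeasure.le_liminf_measure_open_of_tendsto hμ (hO _ _ _ _)).trans ?_
  exact liminf_le_of_frequently_le (Eventually.frequently (hP _ (by positivity)))

/-- a point of `Fr f` is in one of the sets `SOH` -/
theorem Fr_sub {f : C(unitInterval, ℂ)} {w : ℂ} (hw : w ∈ Fr f) :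
    ∃ l : ℕ, w ∈ SOH (1 / ((l : ℝ) + 1)) f := by
  obtain ⟨t, ht, y, hy, hwf⟩ := hw
  have hcl : IsClosed (f '' Set.Iic t) := by
    apply IsCompact.isClosed
    exact (isClosed_Iic.isCompact).image f.continuous
  have hopen : IsOpen (connectedComponentIn (f '' Set.Iic t)ᶜ y) :=
    hcl.isOpen_compl.connectedComponentIn
  have hyw : y ≠ w := by
    rintro rfl
    have h1 : y ∈ connectedComponentIn (f '' Set.Iic t)ᶜ y := mem_connectedComponentIn hy
    rw [hopen.frontier_eq] at hwf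
    exact hwf.2 h1
  have hpos : 0 < min (dist (f t) w) (dist y w) := lt_min (dist_pos.2 ht) (dist_pos.2 hyw)
  obtain ⟨l, hl⟩ := exists_nat_one_div_lt hpos
  exact ⟨l, t, y, hl.le.trans (min_le_left _ _), hy, hl.le.trans (min_le_right _ _), hwf⟩

theorem t_LIM : S_LIM := by
  intro hO hE D hD C a hC ha ha2 μs μ hμ hP
  set en : ℕ → ℝ := fun l => 1 / ((l : ℝ) + 1) with hen
  have hen0 : ∀ l, 0 < en l := fun l => by positivity
  set dn : ℕ → ℕ → ℝ := fun l n => min (en l) (1 / ((n : ℝ) + 1)) with hdn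
  have hdn0 : ∀ l n, 0 < dn l n := fun l n => lt_min (hen0 l) (by positivity)
  set DM : ℕ → Set ℂ := fun M => D ∩ {z | |z.re| < M ∧ |z.im| < M} with hDM
  have hDMo : ∀ M, IsOpen (DM M) := by
    intro M
    refine hD.inter (IsOpen.inter ?_ ?_)
    · exact isOpen_lt (Complex.continuous_re.abs) continuous_const
    · exact isOpen_lt (Complex.continuous_im.abs) continuous_const
  have h1 : ∀ M l n j : ℕ, ∀ᵐ p ∂(μ : Measure C(unitInterval, ℂ)),
      dimH (SOH (en l) p ∩ H934F.t10_A (DM M) (dn l n)) ≤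
        ENNReal.ofReal (2 - a + 1 / ((j : ℝ) + 1)) := by
    intro M l n j
    have hj : 0 < 1 / ((j : ℝ) + 1) := by positivity
    refine one_scaleO (a := a) (C := C) (M := M) hO hE (fun z hz => hz.2) (hdn0 l n)
      (min_le_left _ _) ?_ (by linarith) (by linarith)
    intro z r hr hrd hb
    exact mu_le hO hμ fun ζ hζ => hP z r _ ζ hr hrd (hb.trans Set.inter_subset_left) hζ
  have h2 : ∀ᵐ p ∂(μ : Measure C(unitInterval, ℂ)), ∀ M l n j : ℕ,
      dimH (SOH (en l) p ∩ H934F.t10_A (DM M) (dn l n)) ≤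
        ENNReal.ofReal (2 - a + 1 / ((j : ℝ) + 1)) := by
    rw [ae_all_iff]
    intro M
    rw [ae_all_iff]
    intro l
    rw [ae_all_iff]
    intro n
    rw [ae_all_iff]
    intro j
    exact h1 M l n j
  filter_upwards [h2] with p hp
  have hsub : Fr p ∩ D ⊆
      ⋃ M : ℕ, ⋃ l : ℕ, ⋃ n : ℕ, SOH (en l) p ∩ H934F.t10_A (DM M) (dn l n) := by
    rintro z ⟨hz, hzD⟩
    obtain ⟨l, hl⟩ := Fr_sub hz
    obtain ⟨M, hM⟩ := exists_nat_gt (max |z.re| |z.im|)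
    have hzM : z ∈ DM M :=
      ⟨hzD, (le_max_left _ _).trans_lt hM, (le_max_right _ _).trans_lt hM⟩
    obtain ⟨ε, hε, hb⟩ := Metric.isOpen_iff.mp (hDMo M) z hzM
    obtain ⟨n, hn⟩ := exists_nat_one_div_lt hε
    refine Set.mem_iUnion.mpr ⟨M, Set.mem_iUnion.mpr ⟨l, Set.mem_iUnion.mpr ⟨n, hl, ?_⟩⟩⟩
    exact (Metric.ball_subset_ball ((min_le_right _ _).trans hn.le)).trans hb
  refine (dimH_mono hsub).trans ?_
  rw [dimH_iUnion]
  refine iSup_le fun M => ?_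
  rw [dimH_iUnion]
  refine iSup_le fun l => ?_
  rw [dimH_iUnion]
  refine iSup_le fun n => ?_
  have hlim : Tendsto (fun j : ℕ => ENNReal.ofReal (2 - a + 1 / ((j : ℝ) + 1))) atTop
      (𝓝 (ENNReal.ofReal (2 - a + 0))) :=
    ENNReal.tendsto_ofReal (tendsto_const_nhds.add tendsto_one_div_add_atTop_nhds_zero_nat)
  rw [add_zero] at hlim
  exact ge_of_tendsto' hlim (fun j => hp M l n j)

end Pool.Agent.W191.FR
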